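import Pool.Agent.Helper52.KP.StG

/-! # Project KP, module SLI: nilpotent points of the slice of the right rank -/

set_option autoImplicit false

namespace Pool.Agent.Helper51.KP

open Pool.Agent.Helper52.KP Pool.Agent.Helper67.NO

universe u

variable {g : Type u} [LieRing g] [LieAlgebra ℂ g] [FiniteDimensional ℂ g]

theorem repr_le_size (x : g) (i : Fin (Module.finrank ℂ g)) :
    ‖(Module.finBasis ℂ g).repr x i‖ ≤ size x := by
  unfold size
  exact Finset.single_le_sum (f := fun i => ‖(Module.finBasis ℂ g).repr x i‖)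
    (fun _ _ => norm_nonneg _) (Finset.mem_univ i)

theorem size_nonneg' (x : g) : 0 ≤ size x := by
  unfold size
  exact Finset.sum_nonneg fun _ _ => norm_nonneg _

theorem eq_zero_of_size {x : g} (h : size x ≤ 0) : x = 0 := by
  have h1 : ∀ i, (Module.finBasis ℂ g).repr x i = 0 := fun i => by
    have := (repr_le_size x i).trans h
    exact norm_eq_zero.1 (le_antisymm this (norm_nonneg _))
  apply (Module.finBasis ℂ g).repr.injective
  rw [map_zero]
  exact Finsupp.ext h1

theorem size_smul' (c : ℂ) (x : g) : size (c • x) = ‖c‖ * size x := by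
  unfold size
  rw [Finset.mul_sum]
  refine Finset.sum_congr rfl fun i _ => ?_
  rw [map_smul, Finsupp.smul_apply, norm_smul]

theorem size_sum {ι : Type} (s : Finset ι) (F : ι → g) : size (∑ i ∈ s, F i) ≤ ∑ i ∈ s, size (F i) := by
  unfold size
  rw [Finset.sum_comm]
  refine Finset.sum_le_sum fun i _ => ?_
  rw [map_sum, Finsupp.finsetSum_apply]
  exact norm_sum_le _ _

/-- Bilinear maps are bounded. -/
theorem bil_bound (B : g →ₗ[ℂ] g →ₗ[ℂ] g) : ∃ C : ℝ, 0 < C ∧ ∀ s v, size (B s v) ≤ C * size s * size v := by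
  classical
  set b := Module.finBasis ℂ g with hb
  set C : ℝ := ∑ i, ∑ j, size (B (b i) (b j)) with hC
  have hC0 : 0 ≤ C := Finset.sum_nonneg fun i _ => Finset.sum_nonneg fun j _ => size_nonneg' _
  refine ⟨C + 1, by linarith, fun s v => ?_⟩
  have h1 : B s v = ∑ i, ∑ j, (b.repr s i * b.repr v j) • B (b i) (b j) := by
    conv_lhs => rw [← b.sum_repr s, ← b.sum_repr v]
    simp only [map_sum, LinearMap.sum_apply]
    rw [Finset.sum_comm]
    refine Finset.sum_congr rfl fun i _ => Finset.sum_congr rfl fun j _ => ?_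
    rw [map_smul, map_smul, LinearMap.smul_apply, smul_smul, mul_comm]
  have h2 : size (B s v) ≤ ∑ i, ∑ j, size s * size v * size (B (b i) (b j)) := by
    rw [h1]
    refine (size_sum _ _).trans (Finset.sum_le_sum fun i _ => (size_sum _ _).trans
      (Finset.sum_le_sum fun j _ => ?_))
    rw [size_smul', norm_mul]
    exact mul_le_mul_of_nonneg_right (mul_le_mul (repr_le_size s i) (repr_le_size v j)
      (norm_nonneg _) (size_nonneg' _)) (size_nonneg' _)
  have h3 : ∑ i, ∑ j, size s * size v * size (B (b i) (b j)) = size s * size v * C := by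
    rw [hC, Finset.mul_sum]
    refine Finset.sum_congr rfl fun i _ => ?_
    rw [Finset.mul_sum]
  rw [h3] at h2
  have h4 : 0 ≤ size s * size v := mul_nonneg (size_nonneg' _) (size_nonneg' _)
  nlinarith

/-- **SLI**. -/
theorem hSLI (hJM : StJM.{u}) (hDEC : StDEC.{u}) : StSLI.{u} := by
  intro g _ _ _ _ x h f ht hx
  have hhx : ⁅h, x⁆ = (2 : ℂ) • x := by
    rw [ht.lie_h_e_nsmul, two_smul, two_smul]
  have hhf : ⁅h, f⁆ = -((2 : ℂ) • f) := by
    rw [ht.lie_h_f_nsmul, two_smul, two_smul]
  have hxf : ⁅x, f⁆ = h := ht.lie_e_f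
  obtain ⟨-, hcompl, hdec⟩ := hDEC g (LieAlgebra.ad ℂ g x) (LieAlgebra.ad ℂ g f)
    (LieAlgebra.ad ℂ g h)
    (fun v => by
      simp only [LieAlgebra.ad_apply]
      rw [leibniz_lie h x v, hhx, smul_lie]
      abel)
    (fun v => by
      simp only [LieAlgebra.ad_apply]
      rw [leibniz_lie h f v, hhf, neg_lie, smul_lie]
      abel)
    (fun v => by
      simp only [LieAlgebra.ad_apply]
      rw [leibniz_lie x f v, hxf]
      abel)
    hx
  set E : g →ₗ[ℂ] g := LieAlgebra.ad ℂ g x with hE
  set K : Submodule ℂ g := LinearMap.ker (LieAlgebra.ad ℂ g f : g →ₗ[ℂ] g) with hK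
  set R : Submodule ℂ g := LinearMap.range E with hR
  -- a section of `E` over its range
  obtain ⟨σ, hσ⟩ := E.rangeRestrict.exists_rightInverse_of_surjective
    (LinearMap.range_rangeRestrict E)
  have hσ' : ∀ w : R, ⁅x, σ w⁆ = (w : g) := by
    intro w
    have h1 := LinearMap.congr_fun hσ w
    have h2 : E (σ w) = (w : g) := by
      have := congrArg Subtype.val h1
      simpa using this
    exact h2
  set P : g →ₗ[ℂ] R := R.projectionOnto K hcompl with hP
  have hPR : ∀ w : R, P (w : g) = w := fun w =>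
    Submodule.projectionOnto_apply_left hcompl w
  have hPK : ∀ v ∈ K, P v = 0 := fun v hv =>
    (Submodule.projectionOnto_apply_eq_zero_iff hcompl).2 hv
  obtain ⟨C, hC, hCb⟩ := bil_bound (LinearMap.mk₂ ℂ (fun s v : g => ⁅s, σ (P v)⁆)
    (fun a b c => by simp) (fun a b c => by simp) (fun a b c => by simp) (fun a b c => by simp))
  refine ⟨1 / C, by positivity, fun s hfs hs hnil hrk => ?_⟩
  have hCs : C * size s < 1 := by
    rwa [lt_div_iff₀ hC, mul_comm] at hs
  have hinj : ∀ v : g, v + ⁅s, σ (P v)⁆ = 0 → v = 0 := by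
    intro v hv
    have h1 : v = (-1 : ℂ) • ⁅s, σ (P v)⁆ := by
      rw [neg_smul, one_smul]
      exact eq_neg_of_add_eq_zero_left hv
    have h2 : size v = size ⁅s, σ (P v)⁆ := by
      conv_lhs => rw [h1]
      rw [size_smul', norm_neg, norm_one, one_mul]
    have h3 : size ⁅s, σ (P v)⁆ ≤ C * size s * size v := by
      have := hCb s v
      simpa using this
    have h4 : size v ≤ 0 := by
      by_contra h5
      push Not at h5
      nlinarith
    exact eq_zero_of_size h4
  have hT0 : ∀ w : R, ⁅x + s, σ w⁆ = (w : g) + ⁅s, σ (P (w : g))⁆ := by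
    intro w
    rw [add_lie, hσ', hPR]
  set A : g →ₗ[ℂ] g := LieAlgebra.ad ℂ g (x + s) with hA
  have hAσ : Function.Injective (A.rangeRestrict.comp σ) := by
    rw [injective_iff_map_eq_zero]
    intro w hw
    have h1 : ⁅x + s, σ w⁆ = 0 := by
      have := congrArg Subtype.val hw
      simpa [hA] using this
    rw [hT0] at h1
    exact Subtype.ext (hinj _ h1)
  have hAs : Function.Surjective (A.rangeRestrict.comp σ) := by
    refine (LinearMap.injective_iff_surjective_of_finrank_eq_finrank ?_).1 hAσ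
    have : Module.finrank ℂ (LinearMap.range A) = Module.finrank ℂ R := hrk
    exact this.symm
  have hzero : ∀ v ∈ LinearMap.range A, v ∈ K → v = 0 := by
    intro v hv hvK
    obtain ⟨w, hw⟩ := hAs ⟨v, hv⟩
    have h1 : ⁅x + s, σ w⁆ = v := by
      have := congrArg Subtype.val hw
      simpa [hA] using this
    have h2 : (w : g) - v = 0 := by
      apply hinj
      rw [map_sub, hPK v hvK, sub_zero]
      rw [hT0] at h1
      rw [← h1]
      abel
    have h3 : v = (w : g) := (sub_eq_zero.1 h2).symm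
    have h4 : v ∈ R := h3 ▸ w.2
    exact (Submodule.disjoint_def.1 hcompl.disjoint) v h4 hvK
  have hv : (2 : ℂ) • s - ⁅h, s⁆ = 0 := by
    apply hzero
    · have h1 : (2 : ℂ) • s - ⁅h, s⁆ = (2 : ℂ) • (x + s) - ⁅h, x + s⁆ := by
        rw [lie_add, hhx, smul_add]
        abel
      rw [h1]
      refine Submodule.sub_mem _ ?_ ⟨-h, ?_⟩
      · by_cases hy : x + s = 0
        · rw [hy, smul_zero]
          exact Submodule.zero_mem _
        · obtain ⟨h', f', ht'⟩ := hJM g (x + s) hy hnil
          refine ⟨-h', ?_⟩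
          rw [hA]
          change ⁅x + s, -h'⁆ = _
          rw [lie_neg, lie_skew, ht'.lie_h_e_nsmul, two_smul, two_smul]
      · rw [hA]
        change ⁅x + s, -h⁆ = _
        rw [lie_neg, lie_skew]
    · rw [hK, LinearMap.mem_ker]
      change ⁅f, (2 : ℂ) • s - ⁅h, s⁆⁆ = 0
      have h1 : ⁅f, h⁆ = (2 : ℂ) • f := by
        rw [← lie_skew, hhf, neg_neg]
      rw [lie_sub, lie_smul, hfs, leibniz_lie f h s, hfs, h1, smul_lie, hfs]
      simp
  refine hdec s ?_ ?_
  · exact hfs
  · exact (sub_eq_zero.1 hv).symm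

end Pool.Agent.Helper51.KP
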